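import Mathlib

/-!
# A winding number count (module WIND for MP_7f94de)
-/

open Finset Polynomial Metric

namespace Pool.Agent.Helper66.ESWind

/-- the circle integral of `(t - w)⁻¹` over `|t| = ϱ`, `|w| ≠ ϱ`. -/
theorem integral_inv_sub {ϱ : ℝ} (hϱ : 0 < ϱ) (w : ℂ) (hw : ‖w‖ ≠ ϱ) :
    (∮ t in C(0, ϱ), (t - w)⁻¹) = if ‖w‖ < ϱ then 2 * Real.pi * Complex.I else 0 := by
  split_ifs with h
  · exact circleIntegral.integral_sub_inv_of_mem_ball (by simpa [mem_ball, dist_zero_right] using h)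
  · have hw' : ϱ < ‖w‖ := lt_of_le_of_ne (not_lt.mp h) (Ne.symm hw)
    refine Complex.circleIntegral_eq_zero_of_differentiable_on_off_countable hϱ.le
      Set.countable_empty ?_ ?_
    · intro t ht
      have hne : t - w ≠ 0 := by
        intro h0
        have : t = w := sub_eq_zero.mp h0
        rw [mem_closedBall, dist_zero_right, this] at ht
        linarith
      exact ((continuousAt_id.sub continuousAt_const).inv₀ hne).continuousWithinAt
    · intro t ht
      have hne : t - w ≠ 0 := by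
        intro h0
        have : t = w := sub_eq_zero.mp h0
        have ht1 := ht.1
        rw [mem_ball, dist_zero_right, this] at ht1
        linarith
      exact (differentiableAt_id.sub_const w).inv hne

theorem circleIntegrable_inv_sub {ϱ : ℝ} (hϱ : 0 < ϱ) (w : ℂ) (hw : ‖w‖ ≠ ϱ) :
    CircleIntegrable (fun t => (t - w)⁻¹) 0 ϱ := by
  rw [circleIntegrable_sub_inv_iff]
  right
  rw [mem_sphere, dist_zero_right, abs_of_pos hϱ]
  exact hw

theorem winding {ι : Type*} [DecidableEq ι] (α β : ι → ℂ) (A : Finset ι)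
    (hα : ∀ i ∈ A, α i ≠ 0) (p : ℂ[X]) (hp : p ≠ 0)
    (N : ℕ) (ϱ : ℝ) (hϱ : 0 < ϱ) (hL : ∀ i ∈ A, ∀ t : ℂ, ‖t‖ = ϱ → α i * t + β i ≠ 0)
    (G : ℂ → ℂ)
    (hid : ∀ t : ℂ, ‖t‖ = ϱ → t * p.derivative.eval t + N * p.eval t
      = t * p.eval t * ∑ i ∈ A, α i / (α i * t + β i) + G t)
    (hG : ∀ t : ℂ, ‖t‖ = ϱ → ‖G t‖ < ‖p.eval t‖) :
    N ≤ (A.filter (fun i => ‖β i‖ < ϱ * ‖α i‖)).card := by
  classical
  have hpne : ∀ t : ℂ, ‖t‖ = ϱ → p.eval t ≠ 0 := by
    intro t ht h0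
    have := hG t ht
    rw [h0, norm_zero] at this
    exact absurd this (not_lt.mpr (norm_nonneg _))
  have htne : ∀ t : ℂ, ‖t‖ = ϱ → t ≠ 0 := by
    intro t ht h0
    rw [h0, norm_zero] at ht
    linarith
  -- the three parts
  set F : ℂ → ℂ := fun t => (∑ η ∈ p.roots.toFinset, (p.roots.count η : ℂ) * (t - η)⁻¹)
    + (N : ℂ) * (t - 0)⁻¹ - ∑ i ∈ A, (t - (-β i / α i))⁻¹ with hF
  have hroot : ∀ η ∈ p.roots.toFinset, ‖η‖ ≠ ϱ := by
    intro η hη h
    rw [Multiset.mem_toFinset] at hη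
    exact hpne η h ((mem_roots hp).mp hη)
  have hpole : ∀ i ∈ A, ‖-β i / α i‖ ≠ ϱ := by
    intro i hi h
    apply hL i hi _ h
    field_simp [hα i hi]
    ring
  -- F equals G / (t p) on the circle
  have hFG : ∀ t : ℂ, ‖t‖ = ϱ → F t = G t / (t * p.eval t) := by
    intro t ht
    have h1 := hid t ht
    have hpt := hpne t ht
    have ht0 := htne t ht
    have h2 := (IsAlgClosed.splits p).eval_derivative_eq_eval_mul_sum hpt
    have h3 : (p.roots.map fun z ↦ 1 / (t - z)).sum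
        = ∑ η ∈ p.roots.toFinset, (p.roots.count η : ℂ) * (t - η)⁻¹ := by
      rw [Finset.sum_multiset_map_count]
      refine Finset.sum_congr rfl fun η _ => ?_
      rw [nsmul_eq_mul, one_div]
    have h4 : ∑ i ∈ A, α i / (α i * t + β i) = ∑ i ∈ A, (t - (-β i / α i))⁻¹ := by
      refine Finset.sum_congr rfl fun i hi => ?_
      have := hα i hi
      have hne := hL i hi t ht
      have : t - (-β i / α i) = (α i * t + β i) / α i := by
        field_simp
        ring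
      rw [this, inv_div]
    rw [h3] at h2
    rw [h4] at h1
    rw [h2] at h1
    rw [hF]
    simp only [sub_zero]
    rw [eq_div_iff (mul_ne_zero ht0 hpt)]
    have h5 : ((N : ℂ) * t⁻¹) * (t * p.eval t) = N * p.eval t := by
      field_simp
    calc ((∑ η ∈ p.roots.toFinset, (p.roots.count η : ℂ) * (t - η)⁻¹) + (N : ℂ) * t⁻¹
          - ∑ i ∈ A, (t - (-β i / α i))⁻¹) * (t * p.eval t)
        = t * (p.eval t * ∑ η ∈ p.roots.toFinset, (p.roots.count η : ℂ) * (t - η)⁻¹)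
          + ((N : ℂ) * t⁻¹) * (t * p.eval t)
          - t * p.eval t * ∑ i ∈ A, (t - (-β i / α i))⁻¹ := by ring
      _ = G t := by rw [h5, h1]; ring
  -- circle integrability
  have hI1 : ∀ η ∈ p.roots.toFinset,
      CircleIntegrable (fun t => (p.roots.count η : ℂ) * (t - η)⁻¹) 0 ϱ := by
    intro η hη
    exact (circleIntegrable_inv_sub hϱ η (hroot η hη)).const_fun_smul (a := (p.roots.count η : ℂ))
  have hI2 : CircleIntegrable (fun t => (N : ℂ) * (t - 0)⁻¹) 0 ϱ :=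
    (circleIntegrable_inv_sub hϱ 0 (by rw [norm_zero]; exact hϱ.ne)).const_fun_smul (a := (N : ℂ))
  have hI3 : ∀ i ∈ A, CircleIntegrable (fun t => (t - (-β i / α i))⁻¹) 0 ϱ :=
    fun i hi => circleIntegrable_inv_sub hϱ _ (hpole i hi)
  have hS1 : CircleIntegrable
      (fun t => ∑ η ∈ p.roots.toFinset, (p.roots.count η : ℂ) * (t - η)⁻¹) 0 ϱ :=
    CircleIntegrable.fun_sum _ hI1
  have hS3 : CircleIntegrable (fun t => ∑ i ∈ A, (t - (-β i / α i))⁻¹) 0 ϱ :=
    CircleIntegrable.fun_sum _ hI3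
  -- the value
  set a : ℕ := ∑ η ∈ p.roots.toFinset, if ‖η‖ < ϱ then p.roots.count η else 0 with ha
  have hval : (∮ t in C(0, ϱ), F t) = 2 * Real.pi * Complex.I *
      ((a : ℂ) + N - ((A.filter (fun i => ‖β i‖ < ϱ * ‖α i‖)).card : ℂ)) := by
    have e1 : (∮ t in C(0, ϱ), F t) = (∮ t in C(0, ϱ),
        ((∑ η ∈ p.roots.toFinset, (p.roots.count η : ℂ) * (t - η)⁻¹) + (N : ℂ) * (t - 0)⁻¹))
        - ∮ t in C(0, ϱ), (∑ i ∈ A, (t - (-β i / α i))⁻¹) :=
      circleIntegral.integral_sub (hS1.add hI2) hS3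
    have e2 : (∮ t in C(0, ϱ),
        ((∑ η ∈ p.roots.toFinset, (p.roots.count η : ℂ) * (t - η)⁻¹) + (N : ℂ) * (t - 0)⁻¹))
        = (∮ t in C(0, ϱ), (∑ η ∈ p.roots.toFinset, (p.roots.count η : ℂ) * (t - η)⁻¹))
          + ∮ t in C(0, ϱ), ((N : ℂ) * (t - 0)⁻¹) :=
      circleIntegral.integral_add hS1 hI2
    rw [e1, e2, circleIntegral.integral_fun_sum hI1, circleIntegral.integral_fun_sum hI3,
      circleIntegral.integral_const_mul, integral_inv_sub hϱ 0 (by rw [norm_zero]; exact hϱ.ne),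
      norm_zero, if_pos hϱ]
    have f1 : ∑ η ∈ p.roots.toFinset, (∮ t in C(0, ϱ), (p.roots.count η : ℂ) * (t - η)⁻¹)
        = 2 * Real.pi * Complex.I * (a : ℂ) := by
      rw [ha, Nat.cast_sum, Finset.mul_sum]
      refine Finset.sum_congr rfl fun η hη => ?_
      rw [circleIntegral.integral_const_mul, integral_inv_sub hϱ η (hroot η hη)]
      split_ifs <;> push_cast <;> ring
    have f2 : ∑ i ∈ A, (∮ t in C(0, ϱ), (t - (-β i / α i))⁻¹)
        = 2 * Real.pi * Complex.I *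
          ((A.filter (fun i => ‖β i‖ < ϱ * ‖α i‖)).card : ℂ) := by
      rw [Finset.card_filter, Nat.cast_sum, Finset.mul_sum]
      refine Finset.sum_congr rfl fun i hi => ?_
      rw [integral_inv_sub hϱ _ (hpole i hi)]
      have hpos : 0 < ‖α i‖ := norm_pos_iff.mpr (hα i hi)
      have hiff : ‖-β i / α i‖ < ϱ ↔ ‖β i‖ < ϱ * ‖α i‖ := by
        rw [norm_div, norm_neg, div_lt_iff₀ hpos]
      by_cases h : ‖β i‖ < ϱ * ‖α i‖
      · rw [if_pos (hiff.mpr h), if_pos h]; simp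
      · rw [if_neg (fun h' => h (hiff.mp h')), if_neg h]; simp
    rw [f1, f2]
    ring
  -- the bound
  have hcont : ContinuousOn F (sphere 0 ϱ) := by
    have hsph : ∀ t ∈ sphere (0 : ℂ) ϱ, ‖t‖ = ϱ := fun t ht => by
      rwa [mem_sphere, dist_zero_right] at ht
    refine ContinuousOn.sub (ContinuousOn.add ?_ ?_) ?_
    · refine continuousOn_finsetSum _ fun η hη => ?_
      refine continuousOn_const.mul (ContinuousOn.inv₀ (continuousOn_id.sub continuousOn_const) ?_)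
      intro t ht h0
      exact hroot η hη (by rw [← sub_eq_zero.mp h0]; exact hsph t ht)
    · refine continuousOn_const.mul (ContinuousOn.inv₀ (continuousOn_id.sub continuousOn_const) ?_)
      intro t ht h0
      exact htne t (hsph t ht) (sub_eq_zero.mp h0)
    · refine continuousOn_finsetSum _ fun i hi => ?_
      refine ContinuousOn.inv₀ (continuousOn_id.sub continuousOn_const) ?_
      intro t ht h0
      exact hpole i hi (by rw [← sub_eq_zero.mp h0]; exact hsph t ht)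
  have hlt : ∀ t ∈ sphere (0 : ℂ) ϱ, ‖F t‖ < ϱ⁻¹ := by
    intro t ht
    have ht' : ‖t‖ = ϱ := by rwa [mem_sphere, dist_zero_right] at ht
    rw [hFG t ht', norm_div, norm_mul, ht']
    have hpp : 0 < ‖p.eval t‖ := norm_pos_iff.mpr (hpne t ht')
    rw [div_lt_iff₀ (mul_pos hϱ hpp)]
    rw [inv_mul_cancel_left₀ hϱ.ne']
    exact hG t ht'
  have hbound : ‖∮ t in C(0, ϱ), F t‖ < 2 * Real.pi * ϱ * ϱ⁻¹ := by
    refine circleIntegral.norm_integral_lt_of_norm_le_const_of_lt hϱ hcont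
      (fun t ht => (hlt t ht).le) ⟨(ϱ : ℂ), ?_, ?_⟩
    · rw [mem_sphere, dist_zero_right, Complex.norm_real, Real.norm_of_nonneg hϱ.le]
    · apply hlt
      rw [mem_sphere, dist_zero_right, Complex.norm_real, Real.norm_of_nonneg hϱ.le]
  rw [hval, norm_mul] at hbound
  have hn : ‖(2 * Real.pi * Complex.I : ℂ)‖ = 2 * Real.pi := by
    rw [norm_mul, norm_mul, Complex.norm_I, mul_one, Complex.norm_real,
      Real.norm_of_nonneg Real.pi_pos.le]
    simp
  rw [hn, mul_assoc (2 * Real.pi) ϱ, mul_inv_cancel₀ hϱ.ne'] at hbound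
  have h2 : ‖((a : ℂ) + N - ((A.filter (fun i => ‖β i‖ < ϱ * ‖α i‖)).card : ℂ))‖ < 1 :=
    lt_of_mul_lt_mul_left hbound (by positivity)
  have h3 : ((a : ℂ) + N - ((A.filter (fun i => ‖β i‖ < ϱ * ‖α i‖)).card : ℂ))
      = (((a : ℤ) + N - ((A.filter (fun i => ‖β i‖ < ϱ * ‖α i‖)).card : ℤ) : ℤ) : ℂ) := by
    push_cast
    ring
  rw [h3, Complex.norm_intCast] at h2
  have h4 : |((a : ℤ) + N - ((A.filter (fun i => ‖β i‖ < ϱ * ‖α i‖)).card : ℤ))| < 1 := by
    exact_mod_cast h2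
  have h5 := Int.abs_lt_one_iff.mp h4
  omega

end Pool.Agent.Helper66.ESWind
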